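import Pool.Agent.H777R4.DM.Stmts2
import Pool.Agent.H851R3.DSHFinal

/-! `n` generators: the map `PhiN f` and the Ihara bracket. -/

set_option autoImplicit false

namespace Pool.Agent.H358R3.DM

open Pool.Agent.H777R4.DM H851R3.DSH

attribute [local instance 100] LieRing.ofAssociativeRing

/-- the algebra map -/
noncomputable def SN {n : ℕ} (f : Fin n → A) : Al (Fin n) →ₐ[ℚ] Module.End ℚ A :=
  MonoidAlgebra.lift ℚ (Module.End ℚ A) (FreeMonoid (Fin n)) (FreeMonoid.lift (fun i => s (f i)))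

lemma PhiN_eq {n : ℕ} (f : Fin n → A) (P : Al (Fin n)) : PhiN f P = SN f P 1 := rfl

lemma SN_wd {n : ℕ} (f : Fin n → A) (i : Fin n) : SN f (wd [i]) = s (f i) := by
  simp [SN, wd]

lemma SN_lie {n : ℕ} (f : Fin n → A) (P : Al (Fin n)) (hP : P ∈ LieN n) :
    SN f P = s (SN f P 1) := by
  unfold LieN at hP
  induction hP using LieSubalgebra.lieSpan_induction with
  | mem y hy =>
    obtain ⟨i, rfl⟩ := hy
    rw [SN_wd, s_one]
  | zero => rw [map_zero, LinearMap.zero_apply, s_zero]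
  | add y z hy hz ihy ihz =>
    rw [map_add, LinearMap.add_apply, s_add, ← ihy, ← ihz]
  | smul c y hy ihy =>
    rw [map_smul, LinearMap.smul_apply, s_smul, ← ihy]
  | lie y z hy hz ihy ihz =>
    rw [LieRing.of_associative_ring_bracket, map_sub, map_mul, map_mul]
    rw [ihy, ihz, s_comm, s_one]

theorem taskFinalN : TaskFinalN := by
  intro n f
  refine ⟨fun i => ?_, fun P hP Q hQ => ?_⟩
  · rw [PhiN_eq, SN_wd, s_one]
  · rw [PhiN_eq, PhiN_eq, PhiN_eq, map_sub, map_mul, map_mul]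
    have h := s_comm (SN f P 1) (SN f Q 1)
    rw [← SN_lie f P hP, ← SN_lie f Q hQ] at h
    rw [h, s_one]

end Pool.Agent.H358R3.DM
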